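import Pool.Agent.UL3.Stmts

/-!
MP_c7c9bf_co, row EEA: the second moment from below.
-/

set_option autoImplicit false

open MeasureTheory Set

namespace Pool.Agent.UL3.H80

theorem pf_int {H : ℝ} {G : ℝ → ℝ} (h : Pf H G) :
    IntervalIntegrable (fun x => G x ^ 2) volume 0 H := by
  by_contra hn
  have h1 := intervalIntegral.integral_undef hn
  rw [h.mass] at h1
  norm_num at h1

theorem pf_low {H : ℝ} {G : ℝ → ℝ} (h : Pf H G) {x : ℝ} (h0 : 0 ≤ x) (h1 : x ≤ 3 / 4) :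
    1 - 1157 / 1875 * x ≤ G x := by
  have hH := h.le
  have m0 : (0 : ℝ) ∈ Icc 0 H := ⟨le_rfl, by linarith⟩
  have m1 : (3 / 4 : ℝ) ∈ Icc 0 H := ⟨by norm_num, hH⟩
  have h2 := h.cc.2 m0 m1 (by linarith : (0 : ℝ) ≤ 1 - 4 / 3 * x)
    (by linarith : (0 : ℝ) ≤ 4 / 3 * x) (by ring)
  simp only [smul_eq_mul, mul_zero, zero_add, h.zero, mul_one] at h2
  have e : 4 / 3 * x * (3 / 4) = x := by ring
  rw [e] at h2
  have h3 := mul_le_mul_of_nonneg_left h.low (by linarith : 0 ≤ 4 / 3 * x)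
  linarith

theorem eea : EeaStmt := by
  intro H G h
  have hH := h.le
  have hI := pf_int h
  have hI2 : IntervalIntegrable (fun x => x ^ 2 * G x ^ 2) volume 0 H :=
    hI.continuousOn_mul (by fun_prop)
  have hf : IntervalIntegrable (fun x => (x ^ 2 - 1 / 16) * G x ^ 2) volume 0 H :=
    hI.continuousOn_mul (by fun_prop)
  have s1 : IntervalIntegrable (fun x => (x ^ 2 - 1 / 16) * G x ^ 2) volume 0 (1 / 4) := by
    refine hf.mono_set ?_
    rw [uIcc_of_le (by norm_num), uIcc_of_le (by linarith)]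
    exact Icc_subset_Icc le_rfl (by linarith)
  have s2 : IntervalIntegrable (fun x => (x ^ 2 - 1 / 16) * G x ^ 2) volume (1 / 4) (3 / 4) := by
    refine hf.mono_set ?_
    rw [uIcc_of_le (by norm_num), uIcc_of_le (by linarith)]
    exact Icc_subset_Icc (by norm_num) (by linarith)
  have s3 : IntervalIntegrable (fun x => (x ^ 2 - 1 / 16) * G x ^ 2) volume (3 / 4) H := by
    refine hf.mono_set ?_
    rw [uIcc_of_le hH, uIcc_of_le (by linarith)]
    exact Icc_subset_Icc (by norm_num) le_rfl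
  have e1 : ∫ x in (0 : ℝ)..H, (x ^ 2 - 1 / 16) * G x ^ 2 =
      (∫ x in (0 : ℝ)..H, x ^ 2 * G x ^ 2) - 1 / 16 * (1 / 2) := by
    rw [← h.mass, ← intervalIntegral.integral_const_mul,
      ← intervalIntegral.integral_sub hI2 (hI.const_mul _)]
    refine intervalIntegral.integral_congr fun x _ => ?_
    ring
  have e2 : ∫ x in (0 : ℝ)..H, (x ^ 2 - 1 / 16) * G x ^ 2 =
      (∫ x in (0 : ℝ)..(1 / 4), (x ^ 2 - 1 / 16) * G x ^ 2) +
      (∫ x in (1 / 4 : ℝ)..(3 / 4), (x ^ 2 - 1 / 16) * G x ^ 2) +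
      ∫ x in (3 / 4 : ℝ)..H, (x ^ 2 - 1 / 16) * G x ^ 2 := by
    rw [intervalIntegral.integral_add_adjacent_intervals s1 s2,
      intervalIntegral.integral_add_adjacent_intervals (s1.trans s2) s3]
  have b1 : ∫ x in (0 : ℝ)..(1 / 4), (x ^ 2 - 1 / 16) ≤
      ∫ x in (0 : ℝ)..(1 / 4), (x ^ 2 - 1 / 16) * G x ^ 2 := by
    refine intervalIntegral.integral_mono_on (by norm_num)
      (Continuous.intervalIntegrable (by fun_prop) _ _) s1 fun x hx => ?_
    obtain ⟨g0, g1⟩ := h.rng x ⟨hx.1, by linarith [hx.2]⟩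
    have g2 : G x ^ 2 ≤ 1 := by nlinarith
    have g3 : x ^ 2 - 1 / 16 ≤ 0 := by nlinarith [hx.1, hx.2]
    nlinarith
  have b2 : ∫ x in (1 / 4 : ℝ)..(3 / 4), (x ^ 2 - 1 / 16) * (1 - 1157 / 1875 * x) ^ 2 ≤
      ∫ x in (1 / 4 : ℝ)..(3 / 4), (x ^ 2 - 1 / 16) * G x ^ 2 := by
    refine intervalIntegral.integral_mono_on (by norm_num)
      (Continuous.intervalIntegrable (by fun_prop) _ _) s2 fun x hx => ?_
    have g1 := pf_low h (by linarith [hx.1] : 0 ≤ x) hx.2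
    have g2 : 0 ≤ 1 - 1157 / 1875 * x := by linarith [hx.2]
    have g3 : 0 ≤ x ^ 2 - 1 / 16 := by nlinarith [hx.1, hx.2]
    exact mul_le_mul_of_nonneg_left (pow_le_pow_left₀ g2 g1 2) g3
  have b3 : 0 ≤ ∫ x in (3 / 4 : ℝ)..H, (x ^ 2 - 1 / 16) * G x ^ 2 := by
    refine intervalIntegral.integral_nonneg hH fun x hx => ?_
    have g3 : 0 ≤ x ^ 2 - 1 / 16 := by nlinarith [hx.1]
    positivity
  have c1 : ∫ x in (0 : ℝ)..(1 / 4), (x ^ 2 - 1 / 16 : ℝ) = -(1 / 96) := by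
    rw [intervalIntegral.integral_sub (Continuous.intervalIntegrable (by fun_prop) _ _)
      (Continuous.intervalIntegrable (by fun_prop) _ _), integral_pow,
      intervalIntegral.integral_const]
    norm_num
  have c2 : ∫ x in (1 / 4 : ℝ)..(3 / 4), (x ^ 2 - 1 / 16) * (1 - 1157 / 1875 * x) ^ 2 =
      26 / 192 - 2 * (1157 / 1875) * (80 / 1024) + (1157 / 1875) ^ 2 * (242 / 5120) -
        1 / 16 * (1 / 2) + (1157 / 1875) / 8 * (1 / 4) - (1157 / 1875) ^ 2 / 16 * (26 / 192) := by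
    have d : ∀ x ∈ uIcc (1 / 4 : ℝ) (3 / 4), HasDerivAt (fun x : ℝ =>
        x ^ 3 / 3 - 2 * (1157 / 1875) * (x ^ 4 / 4) + (1157 / 1875) ^ 2 * (x ^ 5 / 5) -
        1 / 16 * x + (1157 / 1875) / 8 * (x ^ 2 / 2) - (1157 / 1875) ^ 2 / 16 * (x ^ 3 / 3))
        ((x ^ 2 - 1 / 16) * (1 - 1157 / 1875 * x) ^ 2) x := by
      intro x _
      have p2 := (hasDerivAt_pow 2 x)
      have p3 := (hasDerivAt_pow 3 x)
      have p4 := (hasDerivAt_pow 4 x)
      have p5 := (hasDerivAt_pow 5 x)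
      have q := ((((((p3.div_const 3).sub ((p4.div_const 4).const_mul (2 * (1157 / 1875)))).add
        ((p5.div_const 5).const_mul ((1157 / 1875 : ℝ) ^ 2))).sub
        ((hasDerivAt_id x).const_mul (1 / 16 : ℝ))).add
        ((p2.div_const 2).const_mul ((1157 / 1875 : ℝ) / 8))).sub
        ((p3.div_const 3).const_mul ((1157 / 1875 : ℝ) ^ 2 / 16)))
      refine HasDerivAt.congr_deriv q ?_
      norm_num
      ring
    rw [intervalIntegral.integral_eq_sub_of_hasDerivAt d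
      (Continuous.intervalIntegrable (by fun_prop) _ _)]
    norm_num
  rw [c1] at b1
  rw [c2] at b2
  norm_num at b1 b2 ⊢
  rw [e1] at e2
  linarith

end Pool.Agent.UL3.H80
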